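import Pool.Agent.Q192.HY.Uniq

/-! MP_e6fbad_gt, Q1: a proof. -/

set_option autoImplicit false

open Pool.Agent.Q192.HY
open scoped Manifold

namespace Pool.Agent.Results.MP_e6fbad_gt.HyperellipticInvolutionUnique

universe u

/-- A hyperelliptic Riemann surface of infinite type having a hyperelliptic involution with finite
limit set has exactly one hyperelliptic involution. More generally this holds as soon as the limit
set attached to one hyperelliptic involution has an isolated point. -/
theorem result (R : Type u) [TopologicalSpace R] [T2Space R] [ConnectedSpace R]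
    [ChartedSpace ℂ R] [IsManifold 𝓘(ℂ) 1 R] :
    ((∃ (τ : R → R) (B : Set (OnePoint ℂ)),
        IsHyperellipticInvolution τ B ∧ (derivedSet B).Finite) →
      ∃! τ : R → R, ∃ B : Set (OnePoint ℂ), IsHyperellipticInvolution τ B) ∧
    ((∃ (τ : R → R) (B : Set (OnePoint ℂ)) (q : OnePoint ℂ),
        IsHyperellipticInvolution τ B ∧ q ∈ derivedSet B ∧
          ¬ AccPt q (Filter.principal (derivedSet B))) →
      ∃! τ : R → R, ∃ B : Set (OnePoint ℂ), IsHyperellipticInvolution τ B) := by
  have h2 : (∃ (τ : R → R) (B : Set (OnePoint ℂ)) (q : OnePoint ℂ),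
        IsHyperellipticInvolution τ B ∧ q ∈ derivedSet B ∧
          ¬ AccPt q (Filter.principal (derivedSet B))) →
      ∃! τ : R → R, ∃ B : Set (OnePoint ℂ), IsHyperellipticInvolution τ B := by
    rintro ⟨τ, B, q, hτ, hq, hiso⟩
    refine ⟨τ, ⟨B, hτ⟩, ?_⟩
    rintro σ ⟨B', hσ⟩
    exact (Pool.Agent.Q192.HY.unique hτ hσ hq hiso).symm
  refine ⟨?_, h2⟩
  rintro ⟨τ, B, hτ, hfin⟩
  have hinf : B.Infinite := by
    obtain ⟨-, -, -, π, hπ, -⟩ := hτ
    exact hπ.infinite
  obtain ⟨q, hq⟩ := hinf.exists_accPt_principal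
  exact h2 ⟨τ, B, q, hτ, hq, fun hacc => (Set.Infinite.of_accPt hacc) hfin⟩

end Pool.Agent.Results.MP_e6fbad_gt.HyperellipticInvolutionUnique
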